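import Pool.Agent.MP_b64966_al.GC.End

namespace Pool.Agent.Results.MP_b64966_al.GassnerCriterion

open Pool.Agent.MP_b64966_al Pool.Agent.MP_b64966_al.PG

universe u

/-- For `n ≥ 4` the least dimension of a faithful representation of the pure braid group on `n`
strands over a field equals `n - 1` exactly when the Gassner representation is faithful. -/
theorem result (n : ℕ) (hn : 4 ≤ n) :
    IsLeast {d : ℕ | ∃ (K : Type u) (_ : Field K) (ρ : PureBraid n →* GL (Fin d) K),
      Function.Injective ρ} (n - 1) ↔ GassnerFaithful n := by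
  constructor
  · rintro ⟨⟨K, _, ρ, hρ⟩, -⟩
    exact GC.crit hn ρ hρ
  · intro h
    refine ⟨upper (by omega) h, ?_⟩
    rintro d ⟨K, _, ρ, hρ⟩
    exact main_lin (by omega) ρ hρ

end Pool.Agent.Results.MP_b64966_al.GassnerCriterion
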