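import Pool.Agent.MP_b64966_al.Defs
import Pool.Agent.MP_b64966_al.Mg.SMain
import Pool.Agent.MP_b64966_al.H65.Hee

namespace Pool.Agent.Results.MP_b64966_al.KrammerOptimal

open Pool.Agent.MP_b64966_al

universe u

/-- For `n ≥ 55` the least dimension of a faithful representation of the braid group on `n`
strands over a field is `n (n - 1) / 2`. -/
theorem result (n : ℕ) (hn : 55 ≤ n) :
    IsLeast {d : ℕ | ∃ (K : Type u) (_ : Field K) (ρ : BraidGroup n →* GL (Fin d) K),
      Function.Injective ρ} (n.choose 2) := by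
  constructor
  · exact ⟨ULift.{u} (RatFunc ℚ), inferInstance, H65.krammer n (by omega) _
      ((ULift.ringEquiv.symm : RatFunc ℚ ≃+* ULift.{u} (RatFunc ℚ)).toRingHom.comp
        (algebraMap (Polynomial ℚ) (RatFunc ℚ)))
      (ULift.ringEquiv.symm.injective.comp (RatFunc.algebraMap_injective ℚ))⟩
  · rintro d ⟨K, _, ρ, hρ⟩
    exact sharp n d K ρ hn hρ

end Pool.Agent.Results.MP_b64966_al.KrammerOptimal
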