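import Pool.Agent.MP_b64966_al.PG.Main

namespace Pool.Agent.Results.MP_b64966_al.PureDichotomy

open Pool.Agent.MP_b64966_al Pool.Agent.MP_b64966_al.PG

universe u

/-- Either all Gassner representations are faithful and the least dimension of a faithful
representation of the pure braid group on `n` strands is `n - 1`, or one of them is not faithful
and this dimension grows quadratically. -/
theorem result :
    (∀ n : ℕ, 3 ≤ n → GassnerFaithful n ∧
      IsLeast {d : ℕ | ∃ (K : Type u) (_ : Field K) (ρ : PureBraid n →* GL (Fin d) K),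
        Function.Injective ρ} (n - 1)) ∨
    ((∃ m : ℕ, 3 ≤ m ∧ ¬ GassnerFaithful m) ∧ ∃ c : ℝ, 0 < c ∧ ∃ n₀ : ℕ, ∀ n : ℕ, n₀ ≤ n →
      ∀ d ∈ {d : ℕ | ∃ (K : Type u) (_ : Field K) (ρ : PureBraid n →* GL (Fin d) K),
        Function.Injective ρ}, c * (n : ℝ) ^ 2 ≤ (d : ℝ)) := by
  by_cases h : ∃ m : ℕ, 3 ≤ m ∧ ¬ GassnerFaithful m
  · obtain ⟨m, h3, hm⟩ := h
    obtain ⟨c, hc, n₀, hn⟩ := main_quad.{u} hm
    exact Or.inr ⟨⟨m, h3, hm⟩, c, hc, n₀, fun n h1 d ⟨K, _, ρ, hρ⟩ => hn n h1 d K ρ hρ⟩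
  · refine Or.inl fun n hn => ?_
    have hG : GassnerFaithful n := by
      by_contra h1
      exact h ⟨n, hn, h1⟩
    exact ⟨hG, upper (by omega) hG, fun d ⟨_, _, ρ, hρ⟩ => main_lin hn ρ hρ⟩

end Pool.Agent.Results.MP_b64966_al.PureDichotomy
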